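import Pool.Agent.TH365.SB.Common
set_option autoImplicit false
namespace Pool.Agent.TH365.SB
open Pool.Agent.TH793.SB

theorem st_same (i : Fin 3) (n : ℤ) : st i n i = n := by simp [st]

theorem st_other {i j : Fin 3} (h : j ≠ i) (n : ℤ) : st i n j = 0 := by simp [st, h]

theorem st_add (i : Fin 3) (a b : ℤ) : st i (a + b) = st i a + st i b := by
  funext j
  by_cases h : j = i
  · subst h; simp [st]
  · simp [st, h]

/-- interior sites of a line have the label of the direction -/
theorem line_lev {c u : Site} {K : ℕ} (hu : InP c K u) (i : Fin 3) (m : ℕ) (hm : 0 < m)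
    (hmK : m < 2 ^ K) : ∃ k < K, Lev c k (el i) (u + st i m) := by
  obtain ⟨k, o, ho, hk⟩ := Nat.exists_eq_two_pow_mul_odd (n := m) (by omega)
  have hkK : k < K := by
    by_contra hcon
    push Not at hcon
    have h1 : 2 ^ K ≤ 2 ^ k := Nat.pow_le_pow_right (by norm_num) hcon
    have h2 : 0 < o := ho.pos
    nlinarith
  refine ⟨k, hkK, ?_, ?_⟩
  · intro j
    have h1 : (2 : ℤ) ^ k ∣ u j - c j := (pow_dvd_pow 2 hkK.le).trans (hu j)
    have h2 : (u + st i m) j - c j = (u j - c j) + st i m j := by
      rw [Pi.add_apply]; ring
    rw [h2]
    refine dvd_add h1 ?_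
    by_cases h : j = i
    · subst h
      rw [st_same, hk]
      push_cast
      exact Dvd.intro _ rfl
    · rw [st_other h]; exact dvd_zero _
  · intro j
    have h1 : (2 : ℤ) ^ (k + 1) ∣ u j - c j := (pow_dvd_pow 2 hkK).trans (hu j)
    have h2 : (u + st i m) j - c j = (u j - c j) + st i m j := by
      rw [Pi.add_apply]; ring
    rw [h2, dvd_add_right h1]
    by_cases h : j = i
    · subst h
      rw [st_same, hk]
      simp only [el, decide_true, true_iff]
      rintro ⟨s, hs⟩
      push_cast at hs
      rw [pow_succ, mul_assoc] at hs
      have h3 := mul_left_cancel₀ (by positivity) hs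
      obtain ⟨r, hr⟩ := ho
      omega
    · rw [st_other h]
      simp [el, h]

/-- the letters along a line -/
theorem line {Y : Cfg} {S : Set Site} {c u : Site} {K : ℕ} (hF : Free Y S) (hO : Org Y S c K)
    (hu : InP c K u) (i : Fin 3) (N : ℕ) (hN : 0 < N) (hNK : N ≤ 2 ^ K)
    (hS : ∀ m : ℕ, m < N → u + st i m ∈ S) :
    In i (Y (u + st i N)) = Out i (Y u) + (N : ZMod 127) := by
  induction N with
  | zero => omega
  | succ N ih =>
    rcases Nat.eq_zero_or_pos N with rfl | hN0
    · have := hF u (by
        have := hS 0 (by omega)
        have h0 : st i ((0 : ℕ) : ℤ) = 0 := by funext j; simp [st]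
        rwa [h0, add_zero] at this) i
      simpa using this
    · have h1 := ih hN0 (by omega) (fun m hm => hS m (by omega))
      have h2 := hF _ (hS N (by omega)) i
      obtain ⟨k, hk, hl⟩ := line_lev hu i N hN0 (by omega)
      have h3 := (hO k hk (el i) (el_ne_zl i) _ (hS N (by omega)) hl).1
      have h4 := pass h3
      have h5 : u + st i ((N + 1 : ℕ) : ℤ) = u + st i N + st i 1 := by
        push_cast
        rw [st_add, add_assoc]
      rw [h5, h2, h4, h1]
      push_cast
      ring

theorem box_line {x n u : Site} {i : Fin 3} {N : ℤ} (h1 : u ∈ box x n) (h2 : u + st i N ∈ box x n)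
    {m : ℤ} (hm0 : 0 ≤ m) (hmN : m ≤ N) : u + st i m ∈ box x n := by
  intro j
  have a := h1 j
  have b := h2 j
  rw [Pi.add_apply] at b ⊢
  by_cases h : j = i
  · subst h
    rw [st_same] at b ⊢
    constructor <;> linarith [a.1, a.2, b.1, b.2]
  · rw [st_other h]
    simpa using a

theorem flp_eq_el {i : Fin 3} {d : Lab} : flp i d = el i ↔ d = zl := by
  constructor
  · intro h
    funext j
    have := congrFun h j
    by_cases hj : j = i
    · subst hj
      simpa [flp, el, zl] using this
    · simpa [flp, el, zl, hj] using this
  · rintro rfl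
    funext j
    by_cases hj : j = i
    · subst hj; simp [flp, el, zl]
    · simp [flp, el, zl, hj]

theorem flp_eq_zl {i : Fin 3} {d : Lab} : flp i d = zl ↔ d = el i := by
  constructor
  · intro h
    funext j
    have := congrFun h j
    by_cases hj : j = i
    · subst hj
      simpa [flp, el, zl] using this
    · simpa [flp, el, zl, hj] using this
  · rintro rfl
    funext j
    by_cases hj : j = i
    · subst hj; simp [flp, el, zl]
    · simp [flp, el, zl, hj]

theorem okLev_of_el {k : ℕ} {t : Tile} {i : Fin 3} (h : lab t = el i) : okLev k t := by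
  rcases t with ⟨κ, j⟩ | ⟨j, a⟩
  · exact absurd h (lab_act_ne κ j i)
  · trivial

theorem boxThm (hL : LabelThm) : BoxThm := by
  intro Y K
  induction K with
  | zero =>
    intro x n _ _
    exact ⟨0, fun k hk => by omega⟩
  | succ K ih =>
    intro x n hn hF
    have hP : (0 : ℤ) < 2 ^ K := by positivity
    have hn2 : ∀ i, (2 : ℤ) ^ K * 2 ≤ n i := fun i => by rw [← pow_succ]; exact hn i
    obtain ⟨c, hc⟩ := ih x n (fun i => by linarith [hn2 i]) hF
    -- corner of the scaled box
    set c' : Site := fun i => x i + (c i - x i) % 2 ^ K with hc'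
    set n' : Site := fun i => -(-(x i + n i - c' i) / 2 ^ K) with hn'
    have c'1 : ∀ i, x i ≤ c' i := fun i => by
      have := Int.emod_nonneg (c i - x i) hP.ne'
      simp only [hc']; linarith
    have c'2 : ∀ i, c' i < x i + 2 ^ K := fun i => by
      have := Int.emod_lt_of_pos (c i - x i) hP
      simp only [hc']; linarith
    have c'3 : ∀ i, (2 : ℤ) ^ K ∣ c' i - c i := fun i => by
      have := Int.emod_add_mul_ediv (c i - x i) (2 ^ K)
      refine ⟨-((c i - x i) / 2 ^ K), ?_⟩
      simp only [hc']
      linarith
    have n'1 : ∀ i (v : ℤ), v < n' i ↔ c' i + 2 ^ K * v < x i + n i := fun i v => by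
      simp only [hn']
      rw [lt_neg, Int.ediv_lt_iff_lt_mul hP]
      constructor <;> intro h <;> linarith
    have n'2 : ∀ i, 2 ≤ n' i := fun i => by
      have : (1 : ℤ) < n' i := by
        rw [n'1]
        linarith [c'2 i, hn2 i]
      omega
    set P : Site → Site := fun v i => c' i + 2 ^ K * v i with hPd
    have P1 : ∀ v, P v ∈ box x n ↔ v ∈ box 0 n' := by
      intro v
      refine forall_congr' fun i => ?_
      have e : (0 : Site) i + n' i = n' i := by simp
      rw [e, n'1, and_congr_left_iff]
      intro _
      simp only [hPd, Pi.zero_apply]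
      constructor
      · intro h
        by_contra hneg
        have h3 : v i ≤ -1 := by omega
        nlinarith [c'2 i]
      · intro h
        nlinarith [c'1 i]
    have P2 : ∀ v i (e : ℤ), P (v + st i e) = P v + st i (2 ^ K * e) := by
      intro v i e
      funext j
      simp only [hPd, Pi.add_apply]
      by_cases h : j = i
      · subst h; rw [st_same, st_same]; ring
      · rw [st_other h, st_other h]; ring
    have P3 : ∀ v, InP c K (P v) := by
      intro v i
      simp only [hPd]
      have : c' i + 2 ^ K * v i - c i = (c' i - c i) + 2 ^ K * v i := by ring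
      rw [this]
      exact dvd_add (c'3 i) (Dvd.intro _ rfl)
    have rule : ∀ v ∈ box 0 n', ∀ i, v + st i 1 ∈ box 0 n' →
        lab (Y (P v)) ≠ el i → lab (Y (P (v + st i 1))) ≠ el i →
        lab (Y (P (v + st i 1))) = flp i (lab (Y (P v))) ∧ okLev K (Y (P v)) ∧
          okLev K (Y (P (v + st i 1))) := by
      intro v hv i hvi h1 h2
      have b1 := (P1 v).2 hv
      have b2 := (P1 _).2 hvi
      have e1 : P (v + st i 1) = P v + st i ((2 ^ K : ℕ) : ℤ) := by
        rw [P2]; push_cast; rw [mul_one]
      have h3 := line hF hc (P3 v) i (2 ^ K) (by positivity) le_rfl (fun m hm => by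
        rw [e1] at b2
        refine box_line b1 b2 (by omega) (by exact_mod_cast hm.le))
      rw [← e1] at h3
      push_cast at h3
      exact ruleR h1 h2 h3
    obtain ⟨α, hα⟩ := hL 0 n' n'2 (fun v => lab (Y (P v))) (fun v _ => lab_ne _) (by
      intro v hv i hvi
      by_cases h1 : lab (Y (P v)) = el i
      · exact Or.inl h1
      · by_cases h2 : lab (Y (P (v + st i 1))) = el i
        · exact Or.inr (Or.inl h2)
        · exact Or.inr (Or.inr (rule v hv i hvi h1 h2).1))
    set c'' : Site := fun i => c' i - 2 ^ K * α i with hc''
    have hcc : ∀ i, (2 : ℤ) ^ K ∣ c i - c'' i := fun i => by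
      obtain ⟨m, hm⟩ := c'3 i
      refine ⟨-m + α i, ?_⟩
      simp only [hc'']
      linear_combination -hm
    refine ⟨c'', ?_⟩
    intro k hk d hd u hu hl
    rcases Nat.lt_or_ge k K with hkK | hkK
    · exact hc k hkK d hd u hu ((Lev_congr hcc hkK d u).2 hl)
    · have : k = K := by omega
      subst this
      -- the coordinates of `u` in the scaled box
      have hdv : ∀ i, (2 : ℤ) ^ k ∣ u i - c' i := fun i => by
        have h1 := hl.1 i
        have h2 : u i - c' i = (u i - c'' i) - 2 ^ k * α i := by simp only [hc'']; ring
        rw [h2]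
        exact dvd_sub h1 (Dvd.intro _ rfl)
      choose v hv using hdv
      have huv : u = P v := by
        funext i
        simp only [hPd]
        linarith [hv i]
      rw [huv] at hu ⊢
      have hvb := (P1 v).1 hu
      have hdig : ∀ i, d i = true ↔ Odd (v i + α i) := by
        intro i
        rw [hl.2 i]
        have h1 : u i - c'' i = 2 ^ k * (v i + α i) := by
          simp only [hc'']; linear_combination hv i
        rw [h1, pow_succ, mul_dvd_mul_iff_left (by positivity), ← even_iff_two_dvd,
          Int.not_even_iff_odd]
      have hlab := hα v hvb d hd hdig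
      refine ⟨hlab, ?_⟩
      by_cases h0 : d = el 0
      · exact okLev_of_el (hlab.trans h0)
      · have hf1 : flp 0 d ≠ zl := fun h => h0 (flp_eq_zl.1 h)
        have hf2 : flp 0 d ≠ el 0 := fun h => hd (flp_eq_el.1 h)
        have hdig' : ∀ (e : ℤ), Odd e → ∀ i, flp 0 d i = true ↔ Odd ((v + st 0 e) i + α i) := by
          intro e he i
          rw [Pi.add_apply]
          by_cases hi : i = 0
          · subst hi
            rw [st_same]
            have h1 := hdig 0
            have h2 : v 0 + e + α 0 = (v 0 + α 0) + e := by ring
            rw [h2, Int.odd_add, ← Int.not_odd_iff_even]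
            simp only [flp, if_true, Bool.not_eq_true']
            rw [← h1]
            simp [he]
          · rw [st_other hi]
            simp only [flp, if_neg hi, add_zero]
            exact hdig i
        by_cases hr : v 0 + 1 < n' 0
        · have hb : v + st 0 1 ∈ box 0 n' := by
            intro j
            have h1 := hvb j
            rw [Pi.add_apply]
            by_cases hj : j = 0
            · subst hj
              rw [st_same]
              simp only [Pi.zero_apply] at h1 ⊢
              omega
            · rw [st_other hj]
              simpa using h1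
          have h1 := hα _ hb (flp 0 d) hf1 (hdig' 1 odd_one)
          exact (rule v hvb 0 hb (by rw [hlab]; exact h0) (by
            intro h2
            exact hf2 (h1.symm.trans h2))).2.1
        · have hv0 := hvb 0
          simp only [Pi.zero_apply] at hv0
          have hn0 := n'2 0
          have hb : v + st 0 (-1) ∈ box 0 n' := by
            intro j
            have h1 := hvb j
            rw [Pi.add_apply]
            by_cases hj : j = 0
            · subst hj
              rw [st_same]
              simp only [Pi.zero_apply] at h1 ⊢
              omega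
            · rw [st_other hj]
              simpa using h1
          have h1 := hα _ hb (flp 0 d) hf1 (hdig' (-1) (by decide))
          have e1 : v + st 0 (-1) + st 0 1 = v := by
            rw [add_assoc, ← st_add]
            funext j
            simp [st]
          have h2 := rule (v + st 0 (-1)) hb 0 (by rw [e1]; exact hvb) (by
            intro h2
            exact hf2 (h1.symm.trans h2)) (by rw [e1, hlab]; exact h0)
          rw [e1] at h2
          exact h2.2.2

end Pool.Agent.TH365.SB
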