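import Pool.Agent.TH365.SB.Common
set_option autoImplicit false
namespace Pool.Agent.TH365.SB
open Pool.Agent.TH793.SB

theorem orgUnique : OrgUnique := by
  intro Y K
  induction K with
  | zero => intro x n _ c c' _ _ i; simp
  | succ K ih =>
    intro x n hn c c' hc hc'
    have hn' : ∀ i, (2 : ℤ) ^ K ≤ n i := fun i =>
      le_trans (pow_le_pow_right₀ (by norm_num) (Nat.le_succ K)) (hn i)
    have h0 := ih x n hn' c c' (Org.mono_K hc (Nat.le_succ K)) (Org.mono_K hc' (Nat.le_succ K))
    by_contra hcon
    push Not at hcon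
    obtain ⟨i0, hi0⟩ := hcon
    let δ : Lab := fun i => decide (¬ (2 : ℤ) ^ (K + 1) ∣ c i - c' i)
    have hδ : ∀ i, δ i = true ↔ ¬ (2 : ℤ) ^ (K + 1) ∣ c i - c' i := fun i => by simp [δ]
    obtain ⟨d, hd, hdδ⟩ : ∃ d : Lab, d ≠ zl ∧ d ≠ δ := by
      by_cases h : δ = el 0
      · refine ⟨el 1, el_ne_zl 1, ?_⟩
        rw [h]
        intro h1
        exact absurd (el_inj h1) (by decide)
      · exact ⟨el 0, el_ne_zl 0, fun h1 => h h1.symm⟩
    have hP : (0 : ℤ) < 2 ^ (K + 1) := by positivity
    let u : Site := fun i => x i + (c i + (if d i then 2 ^ K else 0) - x i) % 2 ^ (K + 1)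
    have hu : u ∈ box x n := by
      intro i
      have h1 := Int.emod_nonneg (c i + (if d i then 2 ^ K else 0) - x i) hP.ne'
      have h2 := Int.emod_lt_of_pos (c i + (if d i then 2 ^ K else 0) - x i) hP
      have h3 := hn i
      simp only [u]
      constructor <;> linarith
    have huc : ∀ i, ∃ m : ℤ, u i - c i = (if d i then 2 ^ K else 0) + 2 ^ (K + 1) * m := by
      intro i
      refine ⟨- ((c i + (if d i then 2 ^ K else 0) - x i) / 2 ^ (K + 1)), ?_⟩
      have h1 := Int.emod_add_mul_ediv (c i + (if d i then 2 ^ K else 0) - x i) (2 ^ (K + 1))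
      simp only [u]
      linarith
    have hcc : ∀ i, ∃ m : ℤ, c i - c' i = (if δ i then 2 ^ K else 0) + 2 ^ (K + 1) * m := by
      intro i
      obtain ⟨m, hm⟩ := h0 i
      rcases Int.even_or_odd m with ⟨r, hr⟩ | ⟨r, hr⟩
      · refine ⟨r, ?_⟩
        have : ¬ (δ i = true) := by
          rw [hδ, not_not]
          exact ⟨r, by rw [hm, hr]; ring⟩
        rw [if_neg this, hm, hr]; ring
      · refine ⟨r, ?_⟩
        have : δ i = true := by
          rw [hδ]
          rintro ⟨s, hs⟩
          rw [hm, hr, pow_succ, mul_assoc] at hs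
          have h2 := mul_left_cancel₀ (by positivity) hs
          omega
        rw [if_pos this, hm, hr]; ring
    have key : ∀ (e : Site) (f : Lab) (g : Site), (∀ i, e i = (if f i then 2 ^ K else 0) +
        2 ^ (K + 1) * g i) → (∀ i, (2 : ℤ) ^ K ∣ e i) ∧ ∀ i, (f i = true ↔
          ¬ (2 : ℤ) ^ (K + 1) ∣ e i) := by
      intro e f g h
      constructor
      · intro i
        rw [h i]
        split_ifs
        · exact ⟨1 + 2 * g i, by ring⟩
        · exact ⟨2 * g i, by ring⟩
      · intro i
        rw [h i]
        by_cases hf : f i = true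
        · simp only [hf, if_true, true_iff]
          rintro ⟨s, hs⟩
          rw [pow_succ] at hs
          have h2 : (2 : ℤ) ^ K * (1 + 2 * g i) = 2 ^ K * (2 * s) := by linarith
          have h3 := mul_left_cancel₀ (by positivity) h2
          omega
        · simp only [hf, false_iff, not_not]
          simp
    have l1 : Lev c K d u := by
      choose g hg using huc
      exact key (fun i => u i - c i) d g hg
    have l2 : Lev c' K (fun i => xor (d i) (δ i)) u := by
      choose g hg using huc
      choose g' hg' using hcc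
      refine key (fun i => u i - c' i) _ (fun i => g i + g' i + if d i ∧ δ i then 1 else 0) ?_
      intro i
      have e1 : u i - c' i = (u i - c i) + (c i - c' i) := by ring
      rw [e1, hg i, hg' i]
      cases d i <;> cases δ i <;> simp <;> ring
    have hx : (fun i => xor (d i) (δ i)) ≠ zl := by
      intro h
      apply hdδ
      funext i
      have := congrFun h i
      simpa [zl] using this
    have r1 := (hc K (Nat.lt_succ_self K) d hd u hu l1).1
    have r2 := (hc' K (Nat.lt_succ_self K) _ hx u hu l2).1
    rw [r1] at r2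
    have r3 : δ i0 = true := (hδ i0).2 hi0
    have r4 := congrFun r2 i0
    simp only [r3, Bool.xor_true] at r4
    cases h : d i0 <;> simp [h] at r4

theorem valid_org (hB : BoxThm) (X : Cfg) (hX : Valid X) (K : ℕ) : ∃ c, Org X Set.univ c K := by
  obtain ⟨c, hc⟩ := hB X K (fun _ => 0) (fun _ => 2 ^ K) (fun _ => le_rfl) (fun u _ => hX u)
  refine ⟨c, ?_⟩
  intro k hk d hd u _ hu
  set x : Site := fun i => min 0 (u i) with hx
  set n : Site := fun i => max (2 ^ K) (u i + 1) - min 0 (u i) with hn
  have hP : (0 : ℤ) < 2 ^ K := by positivity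
  obtain ⟨c', hc'⟩ := hB X K x n (fun i => by
    simp only [hn]
    have := le_max_left ((2 : ℤ) ^ K) (u i + 1)
    have := min_le_left 0 (u i)
    linarith) (fun u _ => hX u)
  have hsub : box (fun _ => 0) (fun _ => 2 ^ K) ⊆ box x n := by
    intro v hv i
    have h1 := hv i
    simp only [hn, hx] at h1 ⊢
    have h2 := min_le_left 0 (u i)
    have h3 := le_max_left ((2 : ℤ) ^ K) (u i + 1)
    constructor <;> linarith [h1.1, h1.2]
  have hux : u ∈ box x n := by
    intro i
    simp only [hn, hx]
    have h2 := min_le_right 0 (u i)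
    have h3 := le_max_right ((2 : ℤ) ^ K) (u i + 1)
    constructor <;> linarith
  have h4 := orgUnique X K (fun _ => 0) (fun _ => 2 ^ K) (fun _ => le_rfl) c c' hc
    (Org.mono hc' hsub)
  exact hc' k hk d hd u hux ((Lev_congr h4 hk d u).1 hu)

end Pool.Agent.TH365.SB
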