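import Pool.Agent.TH365.SB.Common
set_option autoImplicit false
namespace Pool.Agent.TH365.SB
open Pool.Agent.TH793.SB

/-- box with given lower and upper (exclusive) bounds -/
def bx (lo hi : Site) : Set Site := {u | ∀ i, lo i ≤ u i ∧ u i < hi i}

theorem bx_eq (lo hi : Site) : bx lo hi = box lo (fun i => hi i - lo i) := by
  ext u
  refine forall_congr' fun i => ?_
  beta_reduce
  rw [add_sub_cancel]

theorem bxThm (hB : BoxThm) (Y : Cfg) (K : ℕ) (lo hi : Site) (h : ∀ i, (2 : ℤ) ^ K ≤ hi i - lo i)
    (hF : Free Y (bx lo hi)) : ∃ c, Org Y (bx lo hi) c K := by
  rw [bx_eq] at hF ⊢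
  exact hB Y K _ _ h hF

/-- gluing -/
theorem glue (hU : OrgUnique) {Y : Cfg} {K : ℕ} {A B : Set Site} {a b : Site}
    (hA : Org Y A a K) (hB : Org Y B b K) (lo hi : Site) (h : ∀ i, (2 : ℤ) ^ K ≤ hi i - lo i)
    (h1 : bx lo hi ⊆ A) (h2 : bx lo hi ⊆ B) : ∀ i, (2 : ℤ) ^ K ∣ a i - b i := by
  rw [bx_eq] at h1 h2
  exact hU Y K _ _ h a b (Org.mono hA h1) (Org.mono hB h2)

theorem conflict (hB : BoxThm) (hU : OrgUnique) : Conflict := by
  intro Y k d u u' hd hu hu' hne hclose
  by_contra hcon
  push Not at hcon
  set h : ℤ := 2 ^ k with hh
  have hpos : 0 < h := by positivity
  have hN : (2 : ℤ) ^ (k + 1) = 2 * h := by rw [pow_succ]; ring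
  have hbad : ∀ b ∈ bad Y, ∀ b' ∈ bad Y, b ∈ ball u (10 * h) → b' ∈ ball u (10 * h) →
      ∀ i, |b i - b' i| < h := by
    intro b hb b' hb' h1 h2 i
    have := hcon b hb b' hb' h1 h2 i
    have h3 := abs_nonneg (b i - b' i)
    linarith
  clear hcon
  obtain ⟨x, c, hux, hFx, hOx, hlx⟩ := hu
  obtain ⟨x', c', hux', hFx', hOx', hlx'⟩ := hu'
  rw [hN] at hux hux' hFx hFx' hOx hOx' hclose
  have hclose' : ∀ i, -(2 * h) < u i - u' i ∧ u i - u' i < 2 * h := fun i => abs_lt.1 (hclose i)
  -- the claim suffices
  have suff : (∀ i, (2 : ℤ) ^ (k + 1) ∣ c i - c' i) → False := by
    intro hcc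
    have hl2 : Lev c k d u' := (Lev_congr hcc (Nat.lt_succ_self k) d u').2 hlx'
    apply hne
    funext i
    obtain ⟨a, ha⟩ := hlx.1 i
    obtain ⟨a', ha'⟩ := hl2.1 i
    have p1 := hlx.2 i
    have p2 := hl2.2 i
    rw [ha, pow_succ, mul_dvd_mul_iff_left (by positivity)] at p1
    rw [ha', pow_succ, mul_dvd_mul_iff_left (by positivity)] at p2
    have p3 : (2 : ℤ) ∣ a ↔ (2 : ℤ) ∣ a' := not_iff_not.1 (p1.symm.trans p2)
    have p4 : u i - u' i = h * (a - a') := by
      rw [← hh] at ha ha'
      linear_combination ha - ha'
    obtain ⟨m, hm⟩ : ∃ m, a - a' = 2 * m := ⟨(a - a') / 2, by omega⟩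
    have p5 := hclose' i
    rw [p4, hm] at p5
    have p6 : m = 0 := by
      rcases lt_trichotomy m 0 with h0 | h0 | h0
      · exfalso
        have : m ≤ -1 := by omega
        nlinarith [p5.1]
      · exact h0
      · exfalso
        have : 1 ≤ m := by omega
        nlinarith [p5.2]
    rw [hm, p6] at p4
    linarith
  apply suff
  have hQ : ∀ v ∈ cube x (2 * h), v ∈ ball u (4 * h) := by
    intro v hv i
    have h1 := hv i
    have h2 := hux i
    rw [abs_le]
    constructor <;> linarith [h1.1, h1.2, h2.1, h2.2]
  have hQ' : ∀ v ∈ cube x' (2 * h), v ∈ ball u (4 * h) := by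
    intro v hv i
    have h1 := hv i
    have h2 := hux' i
    have h3 := hclose' i
    rw [abs_le]
    constructor <;> linarith [h1.1, h1.2, h2.1, h2.2, h3.1, h3.2]
  by_cases hb : ∃ b0 ∈ bad Y, b0 ∈ ball u (4 * h)
  · obtain ⟨b0, hb0, hb0u⟩ := hb
    have hb0u' : ∀ i, -(4 * h) ≤ b0 i - u i ∧ b0 i - u i ≤ 4 * h := fun i => abs_le.1 (hb0u i)
    have hb10 : b0 ∈ ball u (10 * h) := fun i => (hb0u i).trans (by linarith)
    -- half balls
    let lo : Fin 3 × Bool → Site := fun p j => if j = p.1 ∧ p.2 = true then b0 j + h else u j - 10 * h
    let hi : Fin 3 × Bool → Site := fun p j =>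
      if j = p.1 ∧ p.2 = false then b0 j - h + 1 else u j + 10 * h + 1
    have hfree : ∀ p, Free Y (bx (lo p) (hi p)) := by
      intro p v hv
      by_contra hbv
      have hv10 : v ∈ ball u (10 * h) := by
        intro j
        have h1 := hv j
        have h2 := hb0u' j
        simp only [lo, hi] at h1
        rw [abs_le]
        split_ifs at h1 <;> constructor <;> linarith [h1.1, h1.2, h2.1, h2.2]
      have h3 := hbad v hbv b0 hb0 hv10 hb10 p.1
      rw [abs_lt] at h3
      have h4 := hv p.1
      simp only [lo, hi, true_and] at h4
      cases hp : p.2
      · rw [hp] at h4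
        simp only [Bool.false_eq_true, if_false, if_true] at h4
        linarith [h3.1, h4.2]
      · rw [hp] at h4
        simp only [Bool.true_eq_false, if_false, if_true] at h4
        linarith [h3.2, h4.1]
    have hoff : ∀ p, ∃ cp, Org Y (bx (lo p) (hi p)) cp (k + 1) := by
      intro p
      refine bxThm hB Y (k + 1) _ _ ?_ (hfree p)
      intro j
      have h2 := hb0u' j
      rw [hN]
      simp only [lo, hi]
      split_ifs with a1 a2 a2 <;> first
        | linarith [h2.1, h2.2]
        | exact absurd (a1.2.symm.trans a2.2) (by decide)
    choose cp hcp using hoff
    have hpair : ∀ p q : Fin 3 × Bool, p.1 ≠ q.1 → ∀ i, (2 : ℤ) ^ (k + 1) ∣ cp p i - cp q i := by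
      intro p q hpq
      refine glue hU (hcp p) (hcp q) (fun j => max (lo p j) (lo q j))
        (fun j => min (hi p j) (hi q j)) ?_ ?_ ?_
      · intro j
        have h2 := hb0u' j
        rw [hN]
        simp only [lo, hi]
        by_cases hp1 : j = p.1
        · have hq1 : ¬ j = q.1 := fun h => hpq (hp1.symm.trans h)
          simp only [hp1, hpq, true_and, false_and, if_false]
          rw [← hp1]
          cases p.2
          · simp only [Bool.false_eq_true, if_false, if_true, max_self]
            rw [min_eq_left (by linarith)]
            linarith
          · simp only [Bool.true_eq_false, if_false, if_true, min_self]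
            rw [max_eq_left (by linarith)]
            linarith
        · simp only [hp1, false_and, if_false]
          by_cases hq1 : j = q.1
          · simp only [hq1, true_and]
            rw [← hq1]
            cases q.2
            · simp only [Bool.false_eq_true, if_false, if_true, max_self]
              rw [min_eq_right (by linarith)]
              linarith
            · simp only [Bool.true_eq_false, if_false, if_true, min_self]
              rw [max_eq_right (by linarith)]
              linarith
          · simp only [hq1, false_and, if_false, max_self, min_self]
            linarith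
      · intro v hv j
        have h1 := hv j
        exact ⟨le_trans (le_max_left _ _) h1.1, lt_of_lt_of_le h1.2 (min_le_left _ _)⟩
      · intro v hv j
        have h1 := hv j
        exact ⟨le_trans (le_max_right _ _) h1.1, lt_of_lt_of_le h1.2 (min_le_right _ _)⟩
    have hall : ∀ p q : Fin 3 × Bool, ∀ i, (2 : ℤ) ^ (k + 1) ∣ cp p i - cp q i := by
      intro p q i
      by_cases hpq : p.1 = q.1
      · have h1 := hpair p (p.1 + 1, true) (by
          have : ∀ a : Fin 3, a ≠ a + 1 := by decide
          exact this _) i
        have h2 := hpair (p.1 + 1, true) q (by
          rw [hpq]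
          have : ∀ a : Fin 3, a + 1 ≠ a := by decide
          exact this _) i
        have := dvd_add h1 h2
        rwa [sub_add_sub_cancel] at this
      · exact hpair p q hpq i
    -- a free cube near `u` agrees with a half ball
    have hcube : ∀ (z e : Site), Free Y (cube z (2 * h)) → Org Y (cube z (2 * h)) e (k + 1) →
        (∀ v ∈ cube z (2 * h), v ∈ ball u (4 * h)) → ∃ p, ∀ i, (2 : ℤ) ^ (k + 1) ∣ e i - cp p i := by
      intro z e hFz hOz hz
      have hzc : z ∈ cube z (2 * h) := fun i => ⟨le_rfl, by linarith⟩
      have hz1 : ∀ i, u i - 4 * h ≤ z i := fun i => by
        have := (abs_le.1 (hz z hzc i)).1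
        linarith
      have hz2 : ∀ i, z i + 2 * h ≤ u i + 4 * h + 1 := fun i => by
        have h0 : (fun j => z j + 2 * h - 1) ∈ cube z (2 * h) := fun j => by
          constructor
          · beta_reduce; linarith
          · beta_reduce; linarith
        have := (abs_le.1 (hz _ h0 i)).2
        beta_reduce at this
        linarith
      have hbz : b0 ∉ cube z (2 * h) := fun hc => hb0 (hFz b0 hc)
      obtain ⟨i, hi0⟩ : ∃ i, ¬ (z i ≤ b0 i ∧ b0 i < z i + 2 * h) := by
        by_contra hc
        push Not at hc
        exact hbz hc
      by_cases hcase : b0 i < z i
      · -- extend in direction +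
        refine ⟨(i, true), ?_⟩
        let eh : Site := fun j => if j = i then z j + 4 * h else z j + 2 * h
        have hE : Free Y (bx z eh) := by
          intro v hv
          by_cases hvQ : v ∈ cube z (2 * h)
          · exact hFz v hvQ
          · apply hfree (i, true)
            intro j
            have h1 := hv j
            have h2 := hz1 j
            have h3 := hz2 j
            simp only [lo, hi, eh] at h1 ⊢
            by_cases hj : j = i
            · subst hj
              have h5 : z j + 2 * h ≤ v j := by
                by_contra hc
                push Not at hc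
                apply hvQ
                intro l
                have h6 := hv l
                simp only [eh] at h6
                by_cases hl : l = j
                · subst hl; exact ⟨h6.1, hc⟩
                · rw [if_neg hl] at h6; exact h6
              simp only [if_true, true_and, Bool.true_eq_false, and_false, if_false] at h1 ⊢
              constructor
              · linarith
              · linarith [h1.2]
            · simp only [hj, if_false, false_and] at h1 ⊢
              constructor <;> linarith [h1.1, h1.2]
        obtain ⟨cE, hcE⟩ := bxThm hB Y (k + 1) z eh (by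
          intro j
          rw [hN]
          simp only [eh]
          split_ifs <;> linarith) hE
        have g1 := glue hU hOz hcE z (fun j => z j + 2 * h) (fun j => by rw [hN]; simp)
          (fun v hv => hv) (fun v hv j => by
            have h1 := hv j
            simp only [eh]
            split_ifs
            · constructor <;> linarith [h1.1, h1.2]
            · exact h1)
        have g2 := glue hU hcE (hcp (i, true)) (fun j => if j = i then z j + 2 * h else z j) eh
          (fun j => by
            rw [hN]
            simp only [eh]
            split_ifs <;> linarith)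
          (fun v hv j => by
            have h1 := hv j
            simp only [eh] at h1 ⊢
            by_cases hj : j = i
            · simp only [hj, if_true] at h1 ⊢
              constructor <;> linarith [h1.1, h1.2]
            · simp only [hj, if_false] at h1 ⊢
              exact h1)
          (fun v hv j => by
            have h1 := hv j
            have h2 := hz1 j
            have h3 := hz2 j
            simp only [eh, lo, hi] at h1 ⊢
            by_cases hj : j = i
            · subst hj
              simp only [if_true, true_and, Bool.true_eq_false, and_false, if_false] at h1 ⊢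
              constructor <;> linarith [h1.1, h1.2]
            · simp only [hj, if_false, false_and] at h1 ⊢
              constructor <;> linarith [h1.1, h1.2])
        intro l
        have := dvd_add (g1 l) (g2 l)
        rwa [sub_add_sub_cancel] at this
      · have hcase2 : z i + 2 * h ≤ b0 i := by
          by_contra hc
          push Not at hc
          push Not at hcase
          exact hi0 ⟨hcase, hc⟩
        refine ⟨(i, false), ?_⟩
        let el' : Site := fun j => if j = i then z j - 2 * h else z j
        let eh : Site := fun j => z j + 2 * h
        have hE : Free Y (bx el' eh) := by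
          intro v hv
          by_cases hvQ : v ∈ cube z (2 * h)
          · exact hFz v hvQ
          · apply hfree (i, false)
            intro j
            have h1 := hv j
            have h2 := hz1 j
            have h3 := hz2 j
            simp only [lo, hi, eh, el'] at h1 ⊢
            by_cases hj : j = i
            · subst hj
              have h5 : v j < z j := by
                by_contra hc
                push Not at hc
                apply hvQ
                intro l
                have h6 := hv l
                simp only [eh, el'] at h6
                by_cases hl : l = j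
                · subst hl; exact ⟨hc, h6.2⟩
                · rw [if_neg hl] at h6; exact h6
              simp only [if_true, Bool.false_eq_true, and_false, if_false, and_self] at h1 ⊢
              constructor
              · linarith [h1.1]
              · linarith
            · simp only [hj, if_false, false_and] at h1 ⊢
              constructor <;> linarith [h1.1, h1.2]
        obtain ⟨cE, hcE⟩ := bxThm hB Y (k + 1) el' eh (by
          intro j
          rw [hN]
          simp only [eh, el']
          split_ifs <;> linarith) hE
        have g1 := glue hU hOz hcE z (fun j => z j + 2 * h) (fun j => by rw [hN]; simp)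
          (fun v hv => hv) (fun v hv j => by
            have h1 := hv j
            simp only [eh, el']
            split_ifs
            · constructor <;> linarith [h1.1, h1.2]
            · exact h1)
        have g2 := glue hU hcE (hcp (i, false)) el' (fun j => if j = i then z j else z j + 2 * h)
          (fun j => by
            rw [hN]
            simp only [el']
            split_ifs <;> linarith)
          (fun v hv j => by
            have h1 := hv j
            simp only [eh, el'] at h1 ⊢
            by_cases hj : j = i
            · simp only [hj, if_true] at h1 ⊢
              constructor <;> linarith [h1.1, h1.2]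
            · simp only [hj, if_false] at h1 ⊢
              exact h1)
          (fun v hv j => by
            have h1 := hv j
            have h2 := hz1 j
            have h3 := hz2 j
            simp only [el', lo, hi] at h1 ⊢
            by_cases hj : j = i
            · subst hj
              simp only [if_true, Bool.false_eq_true, and_false, if_false, and_self] at h1 ⊢
              constructor <;> linarith [h1.1, h1.2]
            · simp only [hj, if_false, false_and] at h1 ⊢
              constructor <;> linarith [h1.1, h1.2])
        intro l
        have := dvd_add (g1 l) (g2 l)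
        rwa [sub_add_sub_cancel] at this
    obtain ⟨p, hp⟩ := hcube x c hFx hOx hQ
    obtain ⟨q, hq⟩ := hcube x' c' hFx' hOx' hQ'
    intro i
    have h1 := dvd_add (hp i) (hall p q i)
    have h2 := dvd_sub h1 (hq i)
    have e : c i - cp p i + (cp p i - cp q i) - (c' i - cp q i) = c i - c' i := by ring
    rwa [e] at h2
  · push Not at hb
    have hF : Free Y (bx (fun i => u i - 4 * h) (fun i => u i + 4 * h + 1)) := by
      intro v hv
      by_contra hbv
      refine hb v hbv fun i => ?_
      have := hv i
      beta_reduce at this
      rw [abs_le]
      constructor <;> linarith [this.1, this.2]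
    obtain ⟨c0, hc0⟩ := bxThm hB Y (k + 1) _ _ (fun i => by rw [hN]; linarith) hF
    have sub : ∀ z : Site, (∀ v ∈ cube z (2 * h), v ∈ ball u (4 * h)) →
        bx z (fun i => z i + 2 * h) ⊆ bx (fun i => u i - 4 * h) (fun i => u i + 4 * h + 1) := by
      intro z hz v hv i
      have h1 := abs_le.1 (hz v hv i)
      beta_reduce
      constructor <;> linarith [h1.1, h1.2]
    have g1 := glue hU hOx hc0 x (fun i => x i + 2 * h) (fun j => by rw [hN]; simp)
      (fun v hv => hv) (sub x hQ)
    have g2 := glue hU hOx' hc0 x' (fun i => x' i + 2 * h) (fun j => by rw [hN]; simp)
      (fun v hv => hv) (sub x' hQ')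
    intro i
    have h2 := dvd_sub (g1 i) (g2 i)
    have e : c i - c0 i - (c' i - c0 i) = c i - c' i := by ring
    rwa [e] at h2

end Pool.Agent.TH365.SB
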