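import Pool.Agent.TH365.SB.Common
set_option autoImplicit false
namespace Pool.Agent.TH365.SB
open Pool.Agent.TH793.SB

/-- the level of a site -/
theorem exists_level {c u : Site} {j : ℕ} (h : ¬ InP c (j + 1) u) :
    ∃ k ≤ j, ∃ d : Lab, d ≠ zl ∧ Lev c k d u := by
  induction j with
  | zero =>
    refine ⟨0, le_rfl, fun i => decide (¬ (2 : ℤ) ^ (0 + 1) ∣ u i - c i), ?_, ?_, ?_⟩
    · rw [ne_zl]
      unfold InP at h
      push Not at h
      obtain ⟨i, hi⟩ := h
      exact ⟨i, by simpa using hi⟩
    · intro i; simp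
    · intro i; simp
  | succ j ih =>
    by_cases hj : InP c (j + 1) u
    · refine ⟨j + 1, le_rfl, fun i => decide (¬ (2 : ℤ) ^ (j + 1 + 1) ∣ u i - c i), ?_, hj, ?_⟩
      · rw [ne_zl]
        unfold InP at h
        push Not at h
        obtain ⟨i, hi⟩ := h
        exact ⟨i, by simpa using hi⟩
      · intro i; simp
    · obtain ⟨k, hk, d, hd, hl⟩ := ih hj
      exact ⟨k, by omega, d, hd, hl⟩

theorem unres (hB : BoxThm) : Unres := by
  intro Y j u hu hu' hS
  have step1 : ∀ y : Site, u ∈ cube y (2 ^ (j + 1)) → ∃ b ∈ bad Y, b ∈ cube y (2 ^ (j + 1)) := by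
    intro y hy
    by_contra hcon
    push Not at hcon
    have hF : Free Y (cube y (2 ^ (j + 1))) := by
      intro v hv
      by_contra hb
      exact hcon v hb hv
    obtain ⟨c, hc⟩ := hB Y (j + 1) y (fun _ => 2 ^ (j + 1)) (fun _ => le_rfl) hF
    by_cases hI : InP c (j + 1) u
    · exact hu' ⟨y, c, hy, hF, hc, hI⟩
    · obtain ⟨k, hk, d, hd, hl⟩ := exists_level hI
      refine hS k hk d hd ⟨fun i => min (u i) (y i + 2 ^ (j + 1) - 2 ^ (k + 1)), c, ?_, ?_, ?_, hl⟩
      · intro i
        have h1 := hy i
        have h2 : (0 : ℤ) < 2 ^ (k + 1) := by positivity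
        rcases min_cases (u i) (y i + 2 ^ (j + 1) - 2 ^ (k + 1)) with h3 | h3
        · constructor <;> linarith [h3.1, h3.2, h1.1, h1.2]
        · constructor <;> linarith [h3.1, h3.2, h1.1, h1.2]
      · refine Free.mono hF ?_
        intro v hv i
        have h1 := hv i
        have h4 := hy i
        beta_reduce at h1 ⊢
        have h2 : (2 : ℤ) ^ (k + 1) ≤ 2 ^ (j + 1) := pow_le_pow_right₀ (by norm_num) (by omega)
        rcases min_cases (u i) (y i + 2 ^ (j + 1) - 2 ^ (k + 1)) with h3 | h3
        · rw [h3.1] at h1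
          constructor <;> linarith [h3.2, h1.1, h1.2, h4.1, h4.2]
        · rw [h3.1] at h1
          constructor <;> linarith [h3.2, h1.1, h1.2, h4.1, h4.2]
      · refine Org.mono_K (Org.mono hc ?_) (show k + 1 ≤ j + 1 by omega)
        intro v hv i
        have h1 := hv i
        have h4 := hy i
        beta_reduce at h1 ⊢
        have h2 : (2 : ℤ) ^ (k + 1) ≤ 2 ^ (j + 1) := pow_le_pow_right₀ (by norm_num) (by omega)
        rcases min_cases (u i) (y i + 2 ^ (j + 1) - 2 ^ (k + 1)) with h3 | h3
        · rw [h3.1] at h1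
          constructor <;> linarith [h3.2, h1.1, h1.2, h4.1, h4.2]
        · rw [h3.1] at h1
          constructor <;> linarith [h3.2, h1.1, h1.2, h4.1, h4.2]
  rcases j with _ | j
  · obtain ⟨b, hb, hbc⟩ := step1 u (fun i => ⟨le_rfl, by norm_num⟩)
    have hbb : b ∈ ball u (10 * 2 ^ 0) := by
      intro i
      have := hbc i
      norm_num at this ⊢
      rw [abs_le]
      constructor <;> omega
    exact ⟨b, hb, b, hb, hbb, hbb, fun h => by omega⟩
  · obtain ⟨x, c, hux, hF, _, _⟩ := hu
    set h : ℤ := 2 ^ j with hh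
    have hpos : 0 < h := by positivity
    have e1 : (2 : ℤ) ^ (j + 1) = 2 * h := by rw [pow_succ]; ring
    have e2 : (2 : ℤ) ^ (j + 1 + 1) = 4 * h := by rw [pow_succ, e1]; ring
    rw [e1] at hux hF
    rw [e2] at step1
    let y : Site := fun i => if u i + h < x i + 2 * h then u i else u i - 4 * h + 1
    let y' : Site := fun i => if u i + h < x i + 2 * h then u i - 4 * h + 1 else u i
    obtain ⟨b, hb, hbc⟩ := step1 y (fun i => by
      simp only [y]
      split_ifs <;> constructor <;> linarith)
    obtain ⟨b', hb', hbc'⟩ := step1 y' (fun i => by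
      simp only [y']
      split_ifs <;> constructor <;> linarith)
    refine ⟨b, hb, b', hb', ?_, ?_, fun _ => ?_⟩
    · intro i
      have h1 := hbc i
      simp only [y] at h1
      rw [e1, abs_le]
      split_ifs at h1 <;> constructor <;> linarith [h1.1, h1.2]
    · intro i
      have h1 := hbc' i
      simp only [y'] at h1
      rw [e1, abs_le]
      split_ifs at h1 <;> constructor <;> linarith [h1.1, h1.2]
    · have hbx : b ∉ cube x (2 * h) := fun hcon => hb (hF b hcon)
      have : ∃ i, ¬ (x i ≤ b i ∧ b i < x i + 2 * h) := by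
        by_contra hcon
        push Not at hcon
        exact hbx hcon
      obtain ⟨i, hi⟩ := this
      refine ⟨i, ?_⟩
      have h1 := hbc i
      have h2 := hbc' i
      have h3 := hux i
      simp only [y, y'] at h1 h2
      rw [e1]
      by_cases hs : u i + h < x i + 2 * h
      · rw [if_pos hs] at h1 h2
        have h4 : x i + 2 * h ≤ b i := by
          by_contra hcon
          exact hi ⟨by linarith [h1.1, h3.1], by linarith⟩
        have h5 := le_abs_self (b i - b' i)
        linarith [h2.2]
      · rw [if_neg hs] at h1 h2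
        have h4 : b i < x i := by
          by_contra hcon
          exact hi ⟨by linarith, by linarith [h1.2, h3.2]⟩
        have h5 := neg_abs_le (b i - b' i)
        linarith [h2.1]

end Pool.Agent.TH365.SB
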