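import Pool.Agent.TH365.SB.J577
set_option autoImplicit false
namespace Pool.Agent.TH365.SB
open Pool.Agent.TH793.SB

theorem noPer (hB : BoxThm) (hU : OrgUnique) : NoPer := by
  intro X hX a ha
  have key : ∀ K : ℕ, ∀ i, (2 : ℤ) ^ K ∣ a i := by
    intro K
    have hP : (0 : ℤ) < 2 ^ K := by positivity
    -- a big box containing the cube and its translate
    set x : Site := fun i => min 0 (a i) with hx
    set n : Site := fun i => max (2 ^ K) (a i + 2 ^ K) - min 0 (a i) with hn
    obtain ⟨c, hc⟩ := hB X K x n (fun i => by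
      simp only [hn]
      have := le_max_left ((2 : ℤ) ^ K) (a i + 2 ^ K)
      have := min_le_left 0 (a i)
      linarith) (fun u _ => hX u)
    have s1 : box (fun _ => 0) (fun _ => 2 ^ K) ⊆ box x n := by
      intro v hv i
      have h1 := hv i
      simp only [hn, hx] at h1 ⊢
      have h2 := min_le_left 0 (a i)
      have h3 := le_max_left ((2 : ℤ) ^ K) (a i + 2 ^ K)
      constructor <;> linarith [h1.1, h1.2]
    have s2 : ∀ v ∈ box (fun _ => (0 : ℤ)) (fun _ => 2 ^ K), v + a ∈ box x n := by
      intro v hv i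
      have h1 := hv i
      simp only [hn, hx, Pi.add_apply] at h1 ⊢
      have h2 := min_le_right 0 (a i)
      have h3 := le_max_right ((2 : ℤ) ^ K) (a i + 2 ^ K)
      constructor <;> linarith [h1.1, h1.2]
    have o1 : Org X (box (fun _ => 0) (fun _ => 2 ^ K)) c K := Org.mono hc s1
    have o2 : Org X (box (fun _ => 0) (fun _ => 2 ^ K)) (fun i => c i - a i) K := by
      intro k hk d hd v hv hl
      have hl' : Lev c k d (v + a) := by
        have e : ∀ i, v i - (c i - a i) = (v + a) i - c i := fun i => by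
          rw [Pi.add_apply]; ring
        refine ⟨fun i => ?_, fun i => ?_⟩
        · rw [← e]; exact hl.1 i
        · rw [← e]; exact hl.2 i
      have h1 := hc k hk d hd (v + a) (s2 v hv) hl'
      have h2 := ha (v + a)
      rw [add_sub_cancel_right] at h2
      rw [h2]
      exact h1
    have h := hU X K (fun _ => 0) (fun _ => 2 ^ K) (fun _ => le_rfl) c (fun i => c i - a i) o1 o2
    intro i
    have h1 := h i
    rwa [sub_sub_cancel] at h1
  funext i
  by_contra hne
  have h1 := Int.le_of_dvd (abs_pos.2 hne) ((dvd_abs _ _).2 (key (a i).natAbs i))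
  have h2 : (a i).natAbs < 2 ^ (a i).natAbs := Nat.lt_two_pow_self
  have h3 : |a i| = ((a i).natAbs : ℤ) := Int.abs_eq_natAbs _
  rw [h3] at h1
  have h4 : ((2 ^ (a i).natAbs : ℕ) : ℤ) ≤ ((a i).natAbs : ℤ) := by
    push_cast at h1 ⊢
    exact h1
  have h5 : 2 ^ (a i).natAbs ≤ (a i).natAbs := by exact_mod_cast h4
  omega

end Pool.Agent.TH365.SB
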