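import Pool.Agent.TH793.SB.Defs
set_option autoImplicit false
namespace Pool.Agent.TH365.SB
open Pool.Agent.TH793.SB

theorem Org.mono {Y : Cfg} {S T : Set Site} {c : Site} {K : ℕ} (h : Org Y S c K) (hT : T ⊆ S) :
    Org Y T c K := fun k hk d hd u hu hl => h k hk d hd u (hT hu) hl

theorem Org.mono_K {Y : Cfg} {S : Set Site} {c : Site} {K K' : ℕ} (h : Org Y S c K) (hK : K' ≤ K) :
    Org Y S c K' := fun k hk d hd u hu hl => h k (lt_of_lt_of_le hk hK) d hd u hu hl

theorem Free.mono {Y : Cfg} {S T : Set Site} (h : Free Y S) (hT : T ⊆ S) : Free Y T :=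
  fun u hu => h u (hT hu)

theorem dvd_congr {a b c : ℤ} {K n : ℕ} (h : (2 : ℤ) ^ K ∣ b - c) (hn : n ≤ K) :
    (2 : ℤ) ^ n ∣ a - b ↔ (2 : ℤ) ^ n ∣ a - c := by
  have h1 : (2 : ℤ) ^ n ∣ b - c := (pow_dvd_pow 2 hn).trans h
  constructor
  · intro h2
    have := dvd_add h2 h1
    rwa [sub_add_sub_cancel] at this
  · intro h2
    have := dvd_sub h2 h1
    have e : a - c - (b - c) = a - b := by ring
    rwa [e] at this

theorem InP_congr {c c' : Site} {K n : ℕ} (h : ∀ i, (2 : ℤ) ^ K ∣ c i - c' i) (hn : n ≤ K)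
    (u : Site) : InP c n u ↔ InP c' n u :=
  forall_congr' fun i => dvd_congr (h i) hn

theorem Lev_congr {c c' : Site} {K k : ℕ} (h : ∀ i, (2 : ℤ) ^ K ∣ c i - c' i) (hk : k < K)
    (d : Lab) (u : Site) : Lev c k d u ↔ Lev c' k d u := by
  unfold Lev
  rw [InP_congr h hk.le]
  refine and_congr_right fun _ => forall_congr' fun i => ?_
  rw [dvd_congr (h i) (show k + 1 ≤ K from hk)]

theorem Org_congr {Y : Cfg} {S : Set Site} {c c' : Site} {K : ℕ}
    (h : ∀ i, (2 : ℤ) ^ K ∣ c i - c' i) (hO : Org Y S c K) : Org Y S c' K :=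
  fun k hk d hd u hu hl => hO k hk d hd u hu ((Lev_congr h hk d u).2 hl)

theorem el_ne_zl (i : Fin 3) : el i ≠ zl := by
  intro h
  have := congrFun h i
  simp [el, zl] at this

theorem ne_zl {d : Lab} : d ≠ zl ↔ ∃ i, d i = true := by
  constructor
  · intro h
    by_contra hcon
    push Not at hcon
    apply h
    funext i
    simpa [zl] using hcon i
  · rintro ⟨i, hi⟩ h
    rw [h] at hi
    simp [zl] at hi

theorem cube_eq (x : Site) (n : ℤ) : cube x n = box x (fun _ => n) := rfl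

end Pool.Agent.TH365.SB
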